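import Mathlib
import Pool.Agent.Lib.MP_5491ed_gt.Defs
import Pool.Agent.Lib.MP_5491ed_gt.Main

/-!
Positive answer to Arhangel'skii's question Q1 (hence also to Q2) of `MP_5491ed_gt`: if
`C_p(C_p(X))` is homeomorphic to `C_p(C_p(Y))` and `Y` is `σ`-compact, then `X` is `σ`-compact.
`Cp X` is the set of the continuous real functions on `X` with the topology of pointwise
convergence.
-/

set_option autoImplicit false

open Pool.Agent.MP_5491ed_gt in
theorem Pool.Agent.Results.MP_5491ed_gt.SigmaCompact.result.{u, v}
    (X : Type u) [TopologicalSpace X] [T35Space X]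
    (Y : Type v) [TopologicalSpace Y] [T35Space Y] [SigmaCompactSpace Y]
    (h : Nonempty (Cp (Cp X) ≃ₜ Cp (Cp Y))) : SigmaCompactSpace X :=
  sigmaCompact_of_homeomorph h.some
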